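import Pool.Agent.Results.MP_05f553_nt.FewExceptions
import Pool.Agent.Y854.GM.Win

/-!
# Philippon's inequality for all the rationals with a coordinate in short windows around a thin sequence

Let `v ≥ 1` be a sequence with exponent of convergence at most `τ` (for `v_n = n ^ κ` this is `1 / κ`, for `v_n = b ^ n`
or `n!` it is `0`), `A ≥ 1` and `0 ≤ θ < 1`. For all `ρ > 0` outside a set of Hausdorff dimension at most
`(2 A / α + τ) / (1 - θ)`, for all but finitely many `n` Philippon's inequality holds for ALL `x` and all `y` with a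
numerator `± m` or denominator `m` in the window `|m - ρ v_n| ≤ v_n ^ θ` and of height at most `m ^ A` (for `A = 1`: all
`y` with height in the window). If `n` may depend on `x`, then `2 A / α` can be replaced by `A / (α B)`.
-/

set_option autoImplicit false

namespace Pool.Agent.Results.MP_05f553_nt.SequenceHeights

open Finset
open Pool.Agent.Results.MP_05f553_nt (FewExceptions.Holds)

/-- the exponent of convergence of the sequence `v` is at most `τ` -/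
def ExpLe (v : ℕ → ℝ) (τ : ℝ) : Prop := ∀ t : ℝ, τ < t → Summable (fun n : ℕ => (v n) ^ (-t))

/-- `y` has numerator `± m` or denominator `m`, and height at most `m ^ A` -/
def Has (A : ℝ) (m : ℕ) (y : ℚ) : Prop :=
  (y.num.natAbs = m ∨ y.den = m) ∧ max |((y.num : ℤ) : ℝ)| ((y.den : ℕ) : ℝ) ≤ (m : ℝ) ^ A

/-- the inequality holds for all nonzero `y` with `Has A m y` and this `x` -/
def Good (B : ℕ) (α β ε A : ℝ) (x : ℚ) (m : ℕ) : Prop :=
  ∀ y : ℚ, y ≠ 0 → x * y ^ B ≠ 1 → x * y ^ B ≠ -1 → Has A m y → FewExceptions.Holds B α β ε x y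

/-- the exceptional integers -/
def Bad (B : ℕ) (α β ε A : ℝ) : Set ℕ := {m : ℕ | ∃ x : ℚ, x ≠ 0 ∧ ¬ Good B α β ε A x m}

/-- the exceptional integers for a given `x` -/
def BadAt (B : ℕ) (α β ε A : ℝ) (x : ℚ) : Set ℕ := {m : ℕ | ¬ Good B α β ε A x m}

open Classical in
lemma two_cover {T : Type} (S : Set T) (hS : S.Finite) (f g : T → ℕ) (P : Set ℕ) (X : ℕ)
    (h : ∀ m ∈ P, 0 < m → m ≤ X → ∃ t ∈ S, f t = m ∨ g t = m) :
    (((Ioc 0 X).filter (fun m => m ∈ P)).card : ℝ) ≤ 2 * (S.ncard : ℝ) := by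
  have hsub : (Ioc 0 X).filter (fun m => m ∈ P) ⊆ hS.toFinset.image f ∪ hS.toFinset.image g := by
    intro m hm
    rw [mem_filter, mem_Ioc] at hm
    obtain ⟨t, ht, h1⟩ := h m hm.2 hm.1.1 hm.1.2
    rw [mem_union, mem_image, mem_image]
    rcases h1 with h1 | h1
    · exact Or.inl ⟨t, by rwa [Set.Finite.mem_toFinset], h1⟩
    · exact Or.inr ⟨t, by rwa [Set.Finite.mem_toFinset], h1⟩
  have e : S.ncard = hS.toFinset.card := Set.ncard_eq_toFinset_card _ hS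
  have g1 := (card_le_card hsub).trans (card_union_le _ _)
  have g3 := card_image_le (s := hS.toFinset) (f := f)
  have g4 := card_image_le (s := hS.toFinset) (f := g)
  have h5 : ((Ioc 0 X).filter (fun m => m ∈ P)).card ≤ 2 * S.ncard := by omega
  exact_mod_cast h5

lemma pow_bound {C A s ε : ℝ} (hA : 0 < A) (hs : 0 ≤ s) (hε : 0 < ε) (X : ℕ) (hX : 1 ≤ X) {N : ℝ}
    (h : N ≤ C * (((X : ℝ) ^ A)) ^ (s + ε / A)) : 2 * N ≤ 2 * |C| * (X : ℝ) ^ (A * s + ε) := by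
  have hX1 : (1 : ℝ) ≤ X := by exact_mod_cast hX
  have e : ((X : ℝ) ^ A) ^ (s + ε / A) = (X : ℝ) ^ (A * s + ε) := by
    rw [← Real.rpow_mul (by positivity)]
    congr 1
    field_simp
  rw [e] at h
  have h2 : C * (X : ℝ) ^ (A * s + ε) ≤ |C| * (X : ℝ) ^ (A * s + ε) :=
    mul_le_mul_of_nonneg_right (le_abs_self C) (by positivity)
  linarith

open Classical in
lemma count (B : ℕ) (α β ε A : ℝ) (hα : 1 ≤ α) (hβ : 0 ≤ β) (hε : ε < 1 / 2) (hB : 2 ≤ ε * B) (hA : 1 ≤ A)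
    (δ : ℝ) (hδ : 0 < δ) : ∃ C : ℝ, ∀ X : ℕ, 1 ≤ X →
      (((Ioc 0 X).filter (fun m => m ∈ Bad B α β ε A)).card : ℝ) ≤ C * (X : ℝ) ^ (A * (2 / α) + δ) := by
  have hA0 : 0 < A := by linarith
  have hα0 : 0 < α := by linarith
  obtain ⟨C, hC⟩ := FewExceptions.result B α β ε (δ / A) hα hβ hε hB (by positivity)
  refine ⟨2 * |C|, fun X hX => ?_⟩
  have hX1 : (1 : ℝ) ≤ X := by exact_mod_cast hX
  obtain ⟨hfin, hcard, -⟩ := hC ((X : ℝ) ^ A) (Real.one_le_rpow hX1 hA0.le)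
  refine (two_cover _ hfin (fun t => t.2.num.natAbs) (fun t => t.2.den) _ X ?_).trans
    (pow_bound hA0 (by positivity) hδ X hX hcard)
  rintro m ⟨x, hx, hg⟩ hm0 hmX
  unfold Good at hg
  push Not at hg
  obtain ⟨y, hy, h1, h2, h3, h4⟩ := hg
  refine ⟨(x, y), ⟨hx, hy, h1, h2, h3.2.trans ?_, h4⟩, h3.1⟩
  exact Real.rpow_le_rpow (Nat.cast_nonneg _) (by exact_mod_cast hmX) hA0.le

open Classical in
lemma countAt (B : ℕ) (α β ε A : ℝ) (hα : 1 ≤ α) (hβ : 0 ≤ β) (hε : ε < 1 / 2) (hB : 2 ≤ ε * B) (hA : 1 ≤ A)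
    (x : ℚ) (hx : x ≠ 0) (δ : ℝ) (hδ : 0 < δ) : ∃ C : ℝ, ∀ X : ℕ, 1 ≤ X →
      (((Ioc 0 X).filter (fun m => m ∈ BadAt B α β ε A x)).card : ℝ) ≤
        C * (X : ℝ) ^ (A * (1 / (α * B)) + δ) := by
  have hA0 : 0 < A := by linarith
  have hα0 : 0 < α := by linarith
  obtain ⟨C, hC⟩ := FewExceptions.result B α β ε (δ / A) hα hβ hε hB (by positivity)
  refine ⟨2 * |C|, fun X hX => ?_⟩
  have hX1 : (1 : ℝ) ≤ X := by exact_mod_cast hX
  obtain ⟨hfin, -, hcard⟩ := hC ((X : ℝ) ^ A) (Real.one_le_rpow hX1 hA0.le)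
  have hfin' : {y : ℚ | (x, y) ∈ FewExceptions.Exceptions B α β ε ((X : ℝ) ^ A)}.Finite :=
    hfin.preimage (Prod.mk_right_injective x).injOn
  refine (two_cover _ hfin' (fun t => t.num.natAbs) (fun t => t.den) _ X ?_).trans
    (pow_bound hA0 (by positivity) hδ X hX (hcard x))
  rintro m hg hm0 hmX
  have hg' : ¬ Good B α β ε A x m := hg
  unfold Good at hg'
  push Not at hg'
  obtain ⟨y, hy, h1, h2, h3, h4⟩ := hg'
  refine ⟨y, ⟨hx, hy, h1, h2, h3.2.trans ?_, h4⟩, h3.1⟩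
  exact Real.rpow_le_rpow (Nat.cast_nonneg _) (by exact_mod_cast hmX) hA0.le

/-- **Theorem.** Let `α ≥ 1`, `β ≥ 0`, `ε < 1/2`, `ε B ≥ 2`, `A ≥ 1`, `0 ≤ θ < 1` and let `v ≥ 1` be a sequence of
exponent of convergence at most `τ ≥ 0`.
(1) There is a set `E` of Hausdorff dimension at most `(2 A / α + τ) / (1 - θ)` such that for each `ρ > 0` outside `E`,
for all but finitely many `n` the inequality holds for ALL `x ≠ 0` and all `y ≠ 0` of height at most `m ^ A` with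
numerator `± m` or denominator `m`, where `|m - ρ v_n| ≤ v_n ^ θ` (and `x y ^ B ≠ ± 1`).
(2) There is a set `E` of Hausdorff dimension at most `(A / (α B) + τ) / (1 - θ)` such that for each `ρ > 0` outside `E`
and each `x ≠ 0` the same is true for this `x` for all but finitely many `n`.
(3) The sequences `v_n = (n + 1) ^ κ` and `v_n = b ^ n` have exponent of convergence at most `1 / κ` and `0`. -/
theorem result (B : ℕ) (α β ε A θ : ℝ) (hα : 1 ≤ α) (hβ : 0 ≤ β) (hε : ε < 1 / 2) (hB : 2 ≤ ε * B) (hA : 1 ≤ A)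
    (hθ : 0 ≤ θ) (hθ1 : θ < 1) :
    (∀ (v : ℕ → ℝ) (τ : ℝ), (∀ n, 1 ≤ v n) → 0 ≤ τ → ExpLe v τ →
      (∃ E : Set ℝ, dimH E ≤ ENNReal.ofReal ((2 * A / α + τ) / (1 - θ)) ∧ ∀ ρ : ℝ, 0 < ρ → ρ ∉ E →
        ∃ n₀ : ℕ, ∀ n : ℕ, n₀ ≤ n → ∀ m : ℕ, |(m : ℝ) - ρ * v n| ≤ (v n) ^ θ → ∀ x : ℚ, x ≠ 0 →
          Good B α β ε A x m) ∧
      (∃ E : Set ℝ, dimH E ≤ ENNReal.ofReal ((A / (α * B) + τ) / (1 - θ)) ∧ ∀ ρ : ℝ, 0 < ρ → ρ ∉ E →
        ∀ x : ℚ, x ≠ 0 → ∃ n₀ : ℕ, ∀ n : ℕ, n₀ ≤ n → ∀ m : ℕ, |(m : ℝ) - ρ * v n| ≤ (v n) ^ θ →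
          Good B α β ε A x m)) ∧
    (∀ κ : ℝ, 0 < κ → ExpLe (fun n : ℕ => ((n : ℝ) + 1) ^ κ) (1 / κ)) ∧
    (∀ b : ℝ, 1 < b → ExpLe (fun n : ℕ => b ^ n) 0) := by
  have hA0 : 0 < A := by linarith
  have hα0 : 0 < α := by linarith
  refine ⟨fun v τ hv hτ hE => ⟨?_, ?_⟩, fun κ hκ => Pool.Agent.Y854.GM.expLe_pow κ hκ,
    fun b hb => Pool.Agent.Y854.GM.expLe_geom b hb⟩
  · obtain ⟨E, h1, h2⟩ := Pool.Agent.Y854.GM.win_nat (Bad B α β ε A) hv hτ hE (s := A * (2 / α)) (by positivity) hθ1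
      (count B α β ε A hα hβ hε hB hA)
    rw [show A * (2 / α) + τ = 2 * A / α + τ by ring] at h1
    refine ⟨E, h1, fun ρ hρ hρE => ?_⟩
    obtain ⟨n₀, hn⟩ := h2 ρ hρ hρE
    refine ⟨n₀, fun n hn1 m hm x hx => ?_⟩
    by_contra hcon
    exact (hn n hn1 m hm).2 ⟨x, hx, hcon⟩
  · have hx : ∀ x : {x : ℚ // x ≠ 0}, ∃ E : Set ℝ, dimH E ≤ ENNReal.ofReal ((A / (α * B) + τ) / (1 - θ)) ∧
        ∀ ρ : ℝ, 0 < ρ → ρ ∉ E → ∃ n₀ : ℕ, ∀ n : ℕ, n₀ ≤ n → ∀ m : ℕ, |(m : ℝ) - ρ * v n| ≤ (v n) ^ θ →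
          Good B α β ε A x m := by
      intro x
      obtain ⟨E, h1, h2⟩ := Pool.Agent.Y854.GM.win_nat (BadAt B α β ε A x) hv hτ hE (s := A * (1 / (α * B)))
        (by positivity) hθ1 (countAt B α β ε A hα hβ hε hB hA x x.2)
      rw [show A * (1 / (α * B)) + τ = A / (α * B) + τ by ring] at h1
      refine ⟨E, h1, fun ρ hρ hρE => ?_⟩
      obtain ⟨n₀, hn⟩ := h2 ρ hρ hρE
      refine ⟨n₀, fun n hn1 m hm => ?_⟩
      by_contra hcon
      exact (hn n hn1 m hm).2 hcon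
    choose E h1 h2 using hx
    refine ⟨⋃ x, E x, ?_, fun ρ hρ hρE x hx => ?_⟩
    · rw [dimH_iUnion]
      exact iSup_le h1
    · exact h2 ⟨x, hx⟩ ρ hρ (fun h => hρE (Set.mem_iUnion.2 ⟨_, h⟩))

end Pool.Agent.Results.MP_05f553_nt.SequenceHeights
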